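import Pool.Agent.H32.LP.Fin

/-!
# Almost prime values of `m ^ 2 + 1` and `m ^ 2 + 3`, both with a large prime factor

Consider the integers `m` in `(X, 2 X]` for which `(m ^ 2 + 1) (m ^ 2 + 3)` has no prime factor up to
`X ^ (1 / r)`; there are at least `c X / log ^ 2 X` of them, and for these `m ^ 2 + 1` and `m ^ 2 + 3` have at
most `2 r` prime factors each. If `m ^ 2 + 1` and `m ^ 2 + 3` are both primes, they have prime factors larger
than `m`. We show for all `θ₁, θ₂ < 1` that (for `r ≥ r₀`) a proportion of at least `κ` of these `m` is such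
that `m ^ 2 + 1` has a prime factor larger than `X ^ θ₁` and, simultaneously, `m ^ 2 + 3` has a prime factor
larger than `X ^ θ₂`, where `κ` is any number smaller than `1 - (θ₁ + θ₂) / 2` (`j₁ = j₂ = 1` below). In
particular this is so for `θ₁ = θ₂ = 1 - ε`.

Proof: the moments of order `j` of the logarithms of the prime factors up to `X ^ θ`, `j θ < 1`, over the
sifted set, from the fundamental lemma of the sieve in progressions modulo products of `j` primes and the
prime ideal theorem. For `j = 1`: the prime factors up to `X ^ θ` contribute on average `θ log X` to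
`log (m ^ 2 + 1)`, which is `2 log X` up to a constant.
-/

set_option autoImplicit false

namespace Pool.Agent.Results.MP_2dba45_nt.LargePrimeFactors

open Filter Finset Polynomial
open Pool.Agent.H32.LP Pool.Agent.H373R2.T7 Pool.Agent.W123.RU.Poly

/-- The `m` in `(X, 2 X]` such that no prime `p ≤ X ^ (1 / r)` divides `(m ^ 2 + 1) (m ^ 2 + 3)`. -/
def Rough (r X : ℕ) : Set ℕ :=
  {m | X < m ∧ m ≤ 2 * X ∧
    ∀ p : ℕ, p.Prime → (p : ℝ) ≤ (X : ℝ) ^ (1 / (r : ℝ)) → ¬ p ∣ (m ^ 2 + 1) * (m ^ 2 + 3)}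

/-- `n` has a prime factor larger than `y`. -/
def HasLarge (y : ℝ) (n : ℕ) : Prop := ∃ p : ℕ, p.Prime ∧ p ∣ n ∧ y < (p : ℝ)

/-- The product of the `θ / (2 - t θ)` for `0 ≤ t < j`; it is `θ / 2` for `j = 1`. -/
noncomputable def bound (θ : ℝ) (j : ℕ) : ℝ := ∏ t ∈ range j, θ / (2 - t * θ)

lemma dvd_val (p m : ℕ) (i : Bool) : (p : ℤ) ∣ (two i).eval (m : ℤ) ↔
    p ∣ (if i then m ^ 2 + 3 else m ^ 2 + 1) := by
  rw [← Int.natCast_dvd_natCast]
  cases i
  · have : (two false).eval (m : ℤ) = ((m ^ 2 + 1 : ℕ) : ℤ) := by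
      rw [two, Pool.Agent.TH464.PW.quad_eval]
      push_cast
      ring
    rw [this]
    simp
  · have : (two true).eval (m : ℤ) = ((m ^ 2 + 3 : ℕ) : ℤ) := by
      rw [two, Pool.Agent.TH464.PW.quad_eval]
      push_cast
      ring
    rw [this]
    simp

lemma rough_eq (r X : ℕ) : Rough r X = ((Sift two (yl r X) X : Finset ℕ) : Set ℕ) := by
  ext m
  rw [Finset.mem_coe, mem_Sift, Rough, Set.mem_ofPred_eq, and_assoc]
  apply and_congr_right
  intro _
  apply and_congr_right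
  intro _
  constructor
  · intro h p hp hQ
    rw [mem_pz] at hp
    obtain ⟨i, hi⟩ := hQ
    have h1 : (p : ℝ) ≤ (X : ℝ) ^ (1 / (r : ℝ)) := le_trans (by exact_mod_cast hp.1) (yl_le r X)
    apply h p hp.2 h1
    rw [dvd_val] at hi
    cases i
    · exact dvd_mul_of_dvd_left (by simpa using hi) _
    · exact dvd_mul_of_dvd_right (by simpa using hi) _
  · intro h p hp hpX hd
    have h1 : p ∈ pz (yl r X) := mem_pz.2 ⟨Nat.le_floor hpX, hp⟩
    rcases (Nat.Prime.dvd_mul hp).1 hd with h2 | h2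
    · exact h p h1 ⟨false, (dvd_val p m false).2 (by simpa using h2)⟩
    · exact h p h1 ⟨true, (dvd_val p m true).2 (by simpa using h2)⟩

/-- **Almost prime values of `m ^ 2 + 1` and `m ^ 2 + 3`, both with a large prime factor.** -/
theorem result (θ₁ θ₂ : ℝ) (j₁ j₂ : ℕ) (h₁ : 0 < θ₁) (h₂ : 0 < θ₂) (hj₁ : 1 ≤ j₁) (hj₂ : 1 ≤ j₂)
    (hθ₁ : j₁ * θ₁ < 1) (hθ₂ : j₂ * θ₂ < 1) (κ : ℝ) (hκ : κ < 1 - bound θ₁ j₁ - bound θ₂ j₂) :
    ∃ r₀ : ℕ, 1 ≤ r₀ ∧ ∀ r : ℕ, r₀ ≤ r → ∃ c : ℝ, 0 < c ∧ ∀ᶠ X : ℕ in atTop,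
      c * X / Real.log X ^ 2 ≤ ((Rough r X).ncard : ℝ) ∧
      (∀ m ∈ Rough r X, (m ^ 2 + 1).primeFactorsList.length ≤ 2 * r ∧
        (m ^ 2 + 3).primeFactorsList.length ≤ 2 * r) ∧
      κ * ((Rough r X).ncard : ℝ) ≤
        ({m | m ∈ Rough r X ∧ HasLarge ((X : ℝ) ^ θ₁) (m ^ 2 + 1) ∧
          HasLarge ((X : ℝ) ^ θ₂) (m ^ 2 + 3)}.ncard : ℝ) := by
  classical
  have hd : ∀ i, (two i).natDegree = 2 := by
    intro i
    cases i
    · exact Pool.Agent.TH464.PW.quad_deg 1 0 1 one_ne_zero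
    · exact Pool.Agent.TH464.PW.quad_deg 1 0 3 one_ne_zero
  obtain ⟨ra, hra, ha⟩ := order two two_sys
  obtain ⟨rb, hrb, hb⟩ := main two two_sys (fun i => if i then θ₂ else θ₁)
    (by intro i; cases i <;> simp [h₁, h₂]) (fun i => if i then j₂ else j₁)
    (by intro i; cases i <;> simp [hj₁, hj₂]) (by intro i; cases i <;> simp [hθ₁, hθ₂])
    (1 - bound θ₁ j₁ - bound θ₂ j₂ - κ) (by linarith)
  refine ⟨max ra rb, hra.trans (le_max_left _ _), fun r hr => ?_⟩
  have hr1 : 1 ≤ r := hra.trans ((le_max_left _ _).trans hr)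
  obtain ⟨c, hc, hc'⟩ := ha r ((le_max_left _ _).trans hr)
  refine ⟨c, hc, ?_⟩
  filter_upwards [hc', hb r ((le_max_right _ _).trans hr), few two two_sys r hr1] with X k1 k2 k3
  refine ⟨?_, ?_, ?_⟩
  · rw [rough_eq, Set.ncard_coe_finset]
    simpa using k1
  · intro m hm
    rw [rough_eq, Finset.mem_coe] at hm
    have g1 := k3 m hm false
    have g2 := k3 m hm true
    rw [hd] at g1 g2
    have e1 : ((two false).eval (m : ℤ)).natAbs = m ^ 2 + 1 := by
      rw [two, Pool.Agent.TH464.PW.quad_eval]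
      zify
      rw [abs_of_nonneg (by positivity)]
      ring
    have e2 : ((two true).eval (m : ℤ)).natAbs = m ^ 2 + 3 := by
      rw [two, Pool.Agent.TH464.PW.quad_eval]
      zify
      rw [abs_of_nonneg (by positivity)]
      ring
    rw [e1] at g1
    rw [e2] at g2
    exact ⟨g1, g2⟩
  · have e3 : {m | m ∈ Rough r X ∧ HasLarge ((X : ℝ) ^ θ₁) (m ^ 2 + 1) ∧
          HasLarge ((X : ℝ) ^ θ₂) (m ^ 2 + 3)} =
        ((GoodS two (yl r X) X (fun i => if i then θ₂ else θ₁) : Finset ℕ) : Set ℕ) := by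
      ext m
      rw [Set.mem_ofPred_eq, rough_eq, Finset.mem_coe, Finset.mem_coe, mem_GoodS]
      apply and_congr_right
      intro _
      constructor
      · rintro ⟨⟨p, hp, hpd, hpX⟩, q, hq, hqd, hqX⟩ i
        cases i
        · exact ⟨p, hp, (dvd_val p m false).2 (by simpa using hpd), by simpa using hpX⟩
        · exact ⟨q, hq, (dvd_val q m true).2 (by simpa using hqd), by simpa using hqX⟩
      · intro h
        obtain ⟨p, hp, hpd, hpX⟩ := h false
        obtain ⟨q, hq, hqd, hqX⟩ := h true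
        rw [dvd_val] at hpd hqd
        exact ⟨⟨p, hp, by simpa using hpd, by simpa using hpX⟩, q, hq, by simpa using hqd,
          by simpa using hqX⟩
    rw [e3, Set.ncard_coe_finset, rough_eq, Set.ncard_coe_finset]
    refine le_trans (le_of_eq ?_) k2
    congr 1
    rw [Fintype.sum_bool, hd, hd]
    simp only [if_true, Bool.false_eq_true, if_false, beta, bound]
    push_cast
    ring

end Pool.Agent.Results.MP_2dba45_nt.LargePrimeFactors
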